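import Pool.Agent.helper90.DH.SpecI

set_option autoImplicit false

open Filter Topology MeasureTheory
open scoped commutatorElement

namespace Pool.Agent.helper90.DH

open Pool.Agent.helper64.D2

theorem KRE : KRE_stmt := by
  let f : ContDiffBump (0 : ℝ) := ⟨1 / 2, 1, by norm_num, by norm_num⟩
  refine ⟨f.normed volume, f.contDiff_normed (n := 1), f.nonneg_normed, f.normed_neg, ?_, f.integral_normed⟩
  intro x hx
  by_contra h
  apply hx
  have h1 : x ∈ Function.support (f.normed volume) := h
  rw [f.support_normed_eq, Metric.mem_ball, dist_zero_right, Real.norm_eq_abs] at h1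
  have h2 : |x| < 1 := h1
  exact ⟨(abs_lt.mp h2).1.le, (abs_lt.mp h2).2.le⟩

end Pool.Agent.helper90.DH
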